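import Mathlib
import Pool.Agent.Helper601.Phil3

/-!
# Philippon's inequality with `B = 3` needs `α + ε > 4 / 3`

Q1 asks for `B ≥ 1`, `α ≥ 1`, `β ≥ 0` and `0 < ε < 1/2` such that Philippon's inequality holds for all
`x, y`. By the starting result `SmallB` one needs `B ≥ 3`. We show that for `B = 3` the constants with
`α + ε ≤ 4 / 3` are impossible, whatever `β` is, for instance `α = 1` and `ε ≤ 1 / 3`: there are
infinitely many pairs `x, y` for which the inequality fails and for which the numerator of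
`x y ^ 3 + 1` has no prime factors other than `2` and `5`.

Proof. For `a = 2 ^ k` and `b = 5 ^ l` we have `(a - b) (a + 3 b) ^ 3 + (a + b) (3 b - a) ^ 3 = 16 a ^ 3 b`.
If `w ^ 3` divides `a - b` and `v ^ 3` divides `a + b`, then for `x = v ^ 3 (a - b) / (w ^ 3 (a + b))`
and `y = w (a + 3 b) / (v (3 b - a))` the numerator of `x y ^ 3 + 1` is `16 a ^ 3 b`, while `x` and `y`
have heights of size `a / w ^ 3` and `a v` if `a` and `b` have the same size. If `w = v = 1` this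
excludes `α + ε < 4 / 3`. For `w = 7 ^ m` and `v = 11 ^ m`, `m → ∞`, it also excludes
`α + ε = 4 / 3`; suitable `k` and `l` exist since `log 2 / log 5` is irrational.
-/

set_option autoImplicit false

namespace Pool.Agent.Results.MP_05f553_nt.RegionForThree

/-- Philippon's inequality with the constants `B, α, β, ε` for the pair `x, y`. -/
def Holds (B : ℕ) (α β ε : ℝ) (x y : ℚ) : Prop :=
  -(∑ᶠ p ∈ {p : ℕ | p.Prime ∧ padicNorm p (x * y ^ B + 1) < 1},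
      Real.log ((padicNorm p (x * y ^ B + 1) : ℚ) : ℝ)) ≤
    α * B * Real.log (max |(x.num : ℝ)| (x.den : ℝ)) +
    ε * B * Real.log (max |(y.num : ℝ)| (y.den : ℝ)) +
    B * (α * B + ε) * (β + ∑ᶠ p ∈ {p : ℕ | p.Prime ∧ padicNorm p (x * y ^ B + 1) < 1},
      Real.log (p : ℝ))

/-- (1) Let `α ≥ 1`, `ε ≥ 0` and `α + ε ≤ 4 / 3`, and let `β` be any real number. There are infinitely
many pairs of nonzero rationals `x, y` with `x y ^ 3 ≠ 1, -1` for which Philippon's inequality with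
`B = 3` fails and such that `2` and `5` are the only primes `p` with `|x y ^ 3 + 1|_p < 1`.

(2) So if the constants `B, α, β, ε` are as in Q1, then `B ≥ 4`, or `B = 3` and `α + ε > 4 / 3`. -/
theorem result :
    (∀ α β ε : ℝ, 1 ≤ α → 0 ≤ ε → α + ε ≤ 4 / 3 →
      {z : ℚ × ℚ | z.1 ≠ 0 ∧ z.2 ≠ 0 ∧ z.1 * z.2 ^ 3 ≠ 1 ∧ z.1 * z.2 ^ 3 + 1 ≠ 0 ∧
        (∀ p : ℕ, p.Prime → padicNorm p (z.1 * z.2 ^ 3 + 1) < 1 → p = 2 ∨ p = 5) ∧
        ¬ Holds 3 α β ε z.1 z.2}.Infinite) ∧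
    (∀ (B : ℕ) (α β ε : ℝ), 0 < B → 1 ≤ α → 0 ≤ β → 0 < ε → ε < 1 / 2 →
      (∀ x y : ℚ, x ≠ 0 → y ≠ 0 → x * y ^ B ≠ 1 → x * y ^ B + 1 ≠ 0 → Holds B α β ε x y) →
      4 ≤ B ∨ (B = 3 ∧ 4 / 3 < α + ε)) := by
  have key : ∀ (α β ε : ℝ), 1 ≤ α → 0 ≤ ε → α + ε ≤ 4 / 3 → ∀ n : ℕ,
      ∃ z ∈ {z : ℚ × ℚ | z.1 ≠ 0 ∧ z.2 ≠ 0 ∧ z.1 * z.2 ^ 3 ≠ 1 ∧ z.1 * z.2 ^ 3 + 1 ≠ 0 ∧
        (∀ p : ℕ, p.Prime → padicNorm p (z.1 * z.2 ^ 3 + 1) < 1 → p = 2 ∨ p = 5) ∧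
        ¬ Holds 3 α β ε z.1 z.2}, n < (z.1 * z.2 ^ 3 + 1).num.natAbs := by
    intro α β ε hα hε h n
    obtain ⟨x, y, hx, hy, h1, h0, hn, hp, hno⟩ :=
      Pool.Agent.Helper601.Phil3.main (β := β) hα hε h n
    refine ⟨(x, y), ⟨hx, hy, h1, h0, fun p hp1 hp2 => hp p ⟨hp1, hp2⟩, fun hH => hno ?_⟩, hn⟩
    unfold Holds at hH
    unfold Pool.Agent.H78R2.Phil.ht Pool.Agent.H78R2.Phil.S
    refine hH.trans (le_of_eq ?_)
    push_cast
    ring
  refine ⟨fun α β ε hα hε h => ?_, ?_⟩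
  · apply Set.Infinite.of_image (fun z : ℚ × ℚ => (z.1 * z.2 ^ 3 + 1).num.natAbs)
    apply Set.infinite_of_forall_exists_gt
    intro n
    obtain ⟨z, hz, hzn⟩ := key α β ε hα hε h n
    exact ⟨_, ⟨z, hz, rfl⟩, hzn⟩
  · intro B α β ε hB hα hβ hε hε2 hall
    rcases (by omega : B ≤ 2 ∨ B = 3 ∨ 4 ≤ B) with hB2 | rfl | hB4
    · exfalso
      apply Pool.Agent.H78R2.Phil.not_ineq (α := α) (β := β) hε (by linarith) hB hB2
      intro x y hx hy h1 h0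
      refine (hall x y hx hy h1 h0).trans (le_of_eq ?_)
      unfold Pool.Agent.H78R2.Phil.ht Pool.Agent.H78R2.Phil.S
      ring
    · right
      refine ⟨rfl, ?_⟩
      by_contra hlt
      obtain ⟨z, ⟨h1, h2, h3, h4, -, h6⟩, -⟩ := key α β ε hα hε.le (not_lt.1 hlt) 0
      exact h6 (hall z.1 z.2 h1 h2 h3 h4)
    · exact Or.inl hB4

end Pool.Agent.Results.MP_05f553_nt.RegionForThree
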